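import Mathlib
import Pool.Agent.H57.Cen.Concl2

set_option autoImplicit false

namespace Pool.Agent.Results.MP_0a34dc_an.CentralizerNotPH

open Pool.Agent.H57.Cen

/-- On the six-dimensional torus there are commuting `C^1` diffeomorphisms `f` and `g` such that
`f` is Anosov, `g` has positive topological entropy, and `g` is not hyperbolic relative to any
invariant splitting `E^s ⊕ E^c ⊕ E^u` in the sense of the problem. -/
theorem result : ∃ f g : TorusDiffeo 6, IsAnosov f ∧
    (∀ θ, g.toHomeo (f.toHomeo θ) = f.toHomeo (g.toHomeo θ)) ∧ 0 < g.entropy ∧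
    ¬ IsPartiallyHyperbolic g :=
  main

end Pool.Agent.Results.MP_0a34dc_an.CentralizerNotPH
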